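import Pool.Agent.Q221.Loc.Den

/-!
# Denef's question at a prime: global and local `b`-functions

For each prime `p`: the poles of Igusa's Poincaré series of all polynomials `f` are given by the
global `b`-functions if and only if, for all `f` and all points `a` of `ℤ_p ^ n`, the poles of the
Poincaré series of the polynomials `f(c + p ^ k x)` (`k` large, `c ≡ a` modulo `p ^ k`) are given by
the local `b`-functions of `f` at `a`.
-/

set_option autoImplicit false

namespace Pool.Agent.Results.MP_5d9b3c_ag.LocalGlobal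

open MvPolynomial Pool.Agent.Q221.Loc
open Pool.Agent.W206.CU (poincare)
open Pool.Agent.H628R4.TP (IsBFunction)

theorem result (p : ℕ) [Fact p.Prime] :
    (∀ (n : ℕ) (f : MvPolynomial (Fin n) ℤ), f ≠ 0 → ∀ b : Polynomial ℂ,
      IsBFunction (map (Int.castRingHom ℂ) f) b → HoldsT p (poincare p f) b) ↔
    ∀ (n : ℕ) (f : MvPolynomial (Fin n) ℤ), f ≠ 0 → ∀ a : Fin n → ℤ_[p], ∃ k₀ : ℕ, ∀ k ≥ k₀,
      ∀ c : Fin n → ℤ, (∀ i, (p : ℤ_[p]) ^ k ∣ a i - c i) → ∀ b : Polynomial ℂ, LocAt f a b →
        HoldsT p (poincare p (sh c ((p : ℤ) ^ k) f)) b :=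
  glob_iff_local (zax_den p)

end Pool.Agent.Results.MP_5d9b3c_ag.LocalGlobal
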