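import Pool.Agent.Q57.QP.All

set_option autoImplicit false

/-! # Poles of Igusa Poincare series for every prime: systems of quadrics

For every polynomial `F` with integral coefficients such that the ideal `(F)` is in the class `QTS false` below, in
any number of variables, and for EVERY prime `p`, every pole `T₀` of the Poincare series of `F` satisfies
`b_F(-log |T₀| / log p) = 0`: Q1 holds for `F`.

The classes. Two classes of ideals, given by finitely many generators with rational coefficients: `QTS false`
for ideals and `QTS true` for hypersurfaces (principal ideals), and the class `GQ` of ideals.
* `GQ` is the smallest class of ideals which contains all nonzero ideals of `ℚ[x, y]`, **all nonzero ideals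
  which are generated by polynomials of degree at most two in three variables**, all ideals of subschemes of
  smooth surfaces of degree two (`QuadSys`: every common zero `P ∈ ℂ³` is a smooth point of a surface
  `f_j = 0` with `deg f_j ≤ 2`; the other generators are arbitrary), **all nonzero ideals which are generated by
  quadratic forms in four variables**, and the unit ideals, and which is closed under sums `I + J` and products
  `I J` in disjoint sets of variables and under cones: let `f_1, …, f_r` be forms of degree `d > 0` in
  `x_0, …, x_n`, of which `n + 1` are algebraically independent, or such that `d ≥ 2` and there are only the
  trivial relations between the derivatives of some `F = ∑ λ_j f_j ≠ 0` (the origin is an isolated singularity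
  of `F`); if the ideals of all charts `x_i = 1` are in the class, then `(f_1, …, f_r)` is in the class.
* `QTS false` contains `GQ` and `QTS true` and is closed under sums and products in disjoint sets of variables.
* `QTS true` contains all plane curves, the polynomials `∑ y_j f_j(x)` and the Thom-Sebastiani sums
  `∑ y_j f_j(x) + g(z)`, for `(f_j)` in `QTS false` and `g` in `QTS true`, with further variables `y_j`, and it
  is closed under products in disjoint sets of variables and under dropping variables which do not occur.

So the theorem holds for `F = ∑ y_j q_j(x)`, where `q_1, …, q_r` are arbitrary polynomials of degree at most
two in three variables, or quadratic forms in four variables. (By the reduction theorems of this project, the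
conjecture for all polynomials is equivalent to the conjecture for the `∑ y_j q_j(x)`, `q_j` of degree two in
`n` variables, for all `n`.)

Method. Let `LP` be the local statement: the integrals of `|f| ^ s`, `|f| = max |f_j|`, over all small compact
open sets near a point `P ∈ ℚ_p ^ n` are rational functions of `p ^ (-s)`, whose poles belong to numbers which
are roots of all local functional equations at `P`.
* It is compatible with `p`-adic local coordinates, products, sums, and it holds at the vertex of a cone if it
  holds at the other points and if `-n/d` is a root at the vertex. It holds for all ideals of the plane.
* At a point of a smooth surface `q = 0` of degree two there are `p`-adic coordinates `q, u, v`, where `u`, `v`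
  come from the projection from a point of the surface or of the plane at infinity. They are rational functions
  whose inverse is rational on `q = 0`; so with `q` and the other `f_j`, replaced by polynomials
  `h_j(u, v)`, one has `|f| = max(|q|, |h(u, v)|)` near the point, a sum of ideals in disjoint variables. A
  functional equation of `f` gives one of `(q, h)`.
* At a point at which all `f_j` are singular they are quadratic forms in three variables. Linear systems of
  singular conics have a common vertex, or are of the form `x L`. In the other cases some combination is a
  nonsingular form, and its derivatives have only the trivial (Koszul) relations, which gives the root `-3/2`.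
* Quadratic forms in four variables: linear systems of singular forms without a common vertex are contained in
  `x L + K w²`; then either they are the products of a linear form with three others, or the ideal is
  `(x, w²)` near some point, which gives the root `-2 = -4/2` of the exceptional divisor of the vertex.
* The operations `∑ y_j f_j`, Thom-Sebastiani sums, …: see `Pool/Agent/Y230/TH`. -/

namespace Pool.Agent.Results.MP_5d9b3c_ag.QuadricSystems

open MvPolynomial Pool.Agent.W427.SMC Pool.Agent.H628R4.TP Pool.Agent.Q57.QP

/-- **Denef's question for the hypersurfaces of the class `QTS` and every prime `p`.** Let `b` satisfy a
functional equation `b(s) F ^ s = P(s) F ^ (s + 1)`, for instance `b = b_F`. If `(F)` is in the class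
`QTS false`, then the Poincare series of `F` is the expansion at `0` of a rational function `Φ`, and for every
pole `T₀` of `Φ`, that is, for every root `T₀` of the reduced denominator of `Φ`, the number
`t₀ = -log |T₀| / log p` is a root of `b`. -/
theorem result {V : Type} [Fintype V] (F : MvPolynomial V ℤ)
    (hF : QTS false ⟨V, Fin 1, fun _ => map (Int.castRingHom ℚ) F⟩) (p : ℕ) [Fact p.Prime]
    (b : Polynomial ℂ) (hb : IsBFunction (map (Int.castRingHom ℂ) F) b) :
    ∃ Φ : RatFunc ℂ,
      ((Φ.denom : Polynomial ℂ) : PowerSeries ℂ) * poincare p F =
        ((Φ.num : Polynomial ℂ) : PowerSeries ℂ) ∧
      ∀ T₀ : ℂ, Φ.denom.eval T₀ = 0 → b.eval ((-Real.log ‖T₀‖ / Real.log p : ℝ) : ℂ) = 0 :=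
  poin_Q all_steps F hF b hb

end Pool.Agent.Results.MP_5d9b3c_ag.QuadricSystems
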