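import Pool.Agent.Q49.MZ.Denef

/-!
# Denef's question, one prime at a time: reduction to tensors of order three

A tensor `A = (A_{i,j,l})`, `1 ≤ i ≤ k`, `0 ≤ j, l ≤ n`, gives the cubic polynomial
`F_A = ∑ A_{i,j,l} t_i x_j y_l` with `x_0 = y_0 = 1`, in the variables `t_1, …, t_k`, `x_1, …, x_n`,
`y_1, …, y_n`. For every set `Q` of primes, for instance `Q = {p}`, and every `N`, Denef's question for all
polynomials `f ∈ ℤ[x]` and all `p ∈ Q` is equivalent to the question for all `p ∈ Q` and the `F_A` with
entries `A_{i,j,l} ∈ {0, 1, -1}` such that for EVERY prime all poles `T₀` of the Poincaré series of `F_A`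
have `t₀ = -1` or `t₀ ≤ -N`. For a given `f` one tensor works for all primes, however bad the
reduction of `f` is. So for the primes `p` which divide coefficients or discriminants of `f` the
question is reduced to polynomials all of whose coefficients are `0`, `1`, `-1`, which are linear in
each of three groups of variables, and whose numbers of solutions modulo `p ^ m` are as regular as one
likes.

Method. The moves `F ↦ F + (y - a) (t + e)`, with new variables `y`, `t` and arbitrary polynomials `a`,
`e` in the old ones, change the numbers of solutions modulo `p ^ m`, for every `p` and `m`, in an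
explicit way, and replace `b(s)` by `(s + 1) b(s + 1)` (starting library `W206.CU`, where the degrees
are reduced to three by these moves). The monomials `t x_b x_a` of the cubic are separated by further
moves, with `z_a - x_a` and `w_a + e_a(t, x)`, simultaneously for all `a`. After `m` moves the
generating function is continued to `|T| < p ^ m` by the power series of `f`, with no other pole than
`T = p`.
-/

set_option autoImplicit false

namespace Pool.Agent.Results.MP_5d9b3c_ag.TensorsAtEachPrime

open MvPolynomial Pool.Agent.Q49.MZ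

/-- **Denef's question for any set of primes is equivalent to its case of tensors of order three with
entries `0`, `1`, `-1` and with mild singularities.**

`DenefAt p f`: for every pole `T₀` of Igusa's Poincaré series of `f` at `p` (`IsPoleOfOrder`, of order
`r > 0`: the series is the expansion of `A / ((T - T₀) ^ r B)` with polynomials `A`, `B` which do not
vanish at `T₀`) and every `b` with `b(s) f ^ s = P(s) f ^ (s + 1)`, `P(s)` in the Weyl algebra,
polynomial in `s` (for instance `b = b_f`), one has `b(t₀) = 0`, `t₀ = - log |T₀| / log p`.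

`tens A = ∑ A i j l * t_i * x̂_j * ŷ_l`, where `x̂_none = ŷ_none = 1`, `x̂_(some a) = x_a`,
`ŷ_(some a) = y_a`. `Sign A`: all entries are `0`, `1` or `-1`. `MildP N F`: for EVERY prime `p` and
every pole `T₀` of the Poincaré series of `F` at `p`, `t₀ = -1` or `t₀ ≤ -N`.

First part: for every non-constant `f` and every `N` there is such a tensor `A` for which, for every
prime `p`, the answer for `tens A` and `p` implies the answer for `f` and `p`. Second part: the
equivalence, for any set `Q` of primes. -/
theorem result (N : ℕ) :
    (∀ (n : ℕ) (f : MvPolynomial (Fin n) ℤ), (∀ c, f ≠ C c) →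
      ∃ (k n' : ℕ) (A : Fin k → Option (Fin n') → Option (Fin n') → ℤ),
        Sign A ∧ (∀ c, tens A ≠ C c) ∧ MildP N (tens A) ∧
        ∀ p : ℕ, p.Prime → DenefAt p (tens A) → DenefAt p f) ∧
    ∀ Q : Set ℕ, (∀ p ∈ Q, p.Prime) →
      ((∀ (n : ℕ) (f : MvPolynomial (Fin n) ℤ), (∀ c, f ≠ C c) → ∀ p ∈ Q, DenefAt p f) ↔
        ∀ (k n : ℕ) (A : Fin k → Option (Fin n) → Option (Fin n) → ℤ),
          Sign A → (∀ c, tens A ≠ C c) → MildP N (tens A) → ∀ p ∈ Q, DenefAt p (tens A)) := by
  have key : ∀ (n : ℕ) (f : MvPolynomial (Fin n) ℤ), (∀ c, f ≠ C c) →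
      ∃ (k n' : ℕ) (A : Fin k → Option (Fin n') → Option (Fin n') → ℤ),
        Sign A ∧ (∀ c, tens A ≠ C c) ∧ MildP N (tens A) ∧
        ∀ p : ℕ, p.Prime → DenefAt p (tens A) → DenefAt p f := by
    intro n f hf
    have hf0 : f ≠ 0 := fun h => hf 0 (by rw [h, map_zero])
    obtain ⟨k, n', m, A, hm, hA, hfol⟩ := exists_chain_tens
      (Pool.Agent.W206.CU.follow_chain f) f (Pool.Agent.W206.CU.follow_start f hf0) (max N 1)
    refine ⟨k, n', A, hA, hfol.2.2, mildP_of_mild (fun h0 => hfol.2.2 0 (by rw [h0, map_zero]))
      (mild_follow hfol ((le_max_left _ _).trans hm)), fun p hp h => ?_⟩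
    have : Fact p.Prime := ⟨hp⟩
    exact denef_of_follow hf0 ((le_max_right _ _).trans hm) hfol p h
  refine ⟨key, fun Q hQ => ⟨fun h k n A _ h0 _ p hp => ?_, fun h n f hf p hp => ?_⟩⟩
  · refine denef_rename ((Equiv.sumCongr (Equiv.refl _) finSumFinEquiv).trans finSumFinEquiv) p
      (h _ _ (fun c h1 => h0 c ?_) p hp)
    exact rename_injective _ (Equiv.injective _) (by rw [h1, rename_C])
  · obtain ⟨k, n', A, hA, h0, hm, h1⟩ := key n f hf
    exact h1 p (hQ p hp) (h k n' A hA h0 hm p hp)

end Pool.Agent.Results.MP_5d9b3c_ag.TensorsAtEachPrime
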