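import Pool.Agent.Q221.TS.Main

/-!
# Poles of Igusa's Poincaré series: reduction to sums of cubes over triple systems

A *triple system* consists of subsets `E_1, …, E_r` of `{1, …, k}` with three elements or with one
element and of constants `c_1, …, c_r ∈ {0, 1}`, at most one of which is `1`, and `c_j = 0` if `E_j` has
three elements. Its polynomial is the cubic

`Φ = z_1 ^ 3 + ⋯ + z_k ^ 3 + ∑_j y_j (∑_{i ∈ E_j} z_i - c_j) ∈ ℤ[z, y]`.

So `Φ` is given by a 3-uniform hypergraph with some marked vertices. For every `f ∈ ℤ[x]` which is not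
constant and all large `κ` there is such a `Φ` and an isomorphism of polynomial rings over `ℤ[1/24]`
which takes `u f(x) + v_1 w_1 + ⋯ + v_κ w_κ` to `Φ`. We deduce that Denef's question for any set of
primes `p ≥ 5` (for instance for one prime) is equivalent to its case of the polynomials `Φ`; and only
those `Φ` have to be considered whose Poincaré series, for ALL primes `p ≥ 5`, have only poles with
`t₀ = -1` or `t₀ ≤ -N`, and which satisfy a functional equation whose roots different from `-1` have a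
real part smaller than `-N`. For the primes `2` and `3` the number `24` cannot be inverted; here we have
the tensors of our hand-in TensorsAtEachPrime. So Q1 (all primes) is equivalent to its case of the `Φ`
and the primes `p ≥ 5` together with its case of tensors of order three with entries `0`, `1`, `-1` and
the primes `2` and `3`.

Method. The isomorphism over a ring in which `24` is invertible is constructed in `Q42.CU` (our
hand-ins TripleSystems on motivic and topological zeta functions): Horner's scheme makes `f`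
trilinear, products of three variables are sums of cubes of forms `± a ± b ± c`, which are computed
step by step by equations `z + z' + z'' = 0` with a unitriangular matrix; the `y_j` are the Lagrange
multipliers of the equations. The factor `1 / 24` is absorbed here by `u`, by the variables `w_m` and by
the multipliers `y_j`. The isomorphism over `ℤ[1/24]` gives bijections between the zeros modulo `p ^ m`
for `p ≥ 5`, and an isomorphism over `ℂ` for the functional equations. The Poincaré series of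
`u f + ∑ v_m w_m` and the functional equations are related to those of `f` in the starting library
`W206.CU`.
-/

set_option autoImplicit false

namespace Pool.Agent.Results.MP_5d9b3c_ag.TripleSystems

open MvPolynomial Pool.Agent.Q221.TS Pool.Agent.Q49.MZ
open Pool.Agent.Q42.CU (IsTriple Phi)
open Pool.Agent.H628R4.TP (IsBFunction)
open Pool.Agent.W206.CU (IsPoleOfOrder poincare)

/-- For every prime `p ≥ 5` and every pole `T₀` of the Poincaré series of `F` the number
`- log |T₀| / log p` is `-1` or at most `-N`. -/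
def MildR (N : ℕ) {V : Type} (F : MvPolynomial V ℤ) : Prop :=
  ∀ (p : ℕ), p.Prime → 5 ≤ p → ∀ (T₀ : ℂ) (r : ℕ), 0 < r → IsPoleOfOrder (poincare p F) T₀ r →
    -Real.log ‖T₀‖ / Real.log p = -1 ∨ -Real.log ‖T₀‖ / Real.log p ≤ -(N : ℝ)

theorem mildR_of {N : ℕ} {V : Type} [Fintype V] {F : MvPolynomial V ℤ} (hF : F ≠ 0)
    (h : MildT N F) : MildR N F := by
  intro p hp h5 T₀ r hr hP
  have : Fact p.Prime := ⟨hp⟩
  obtain ⟨Z, s₀, hZ, hZi, hZo, hre⟩ := Pool.Agent.W425.PZ.pole_of_poincare p F
    (null_any p hF) hr hP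
  rw [← hre]
  by_cases h1 : -(N : ℝ) < s₀.re
  · exact Or.inl (h p h5 Z hZ hZi s₀ h1 hZo).1
  · exact Or.inr (not_lt.1 h1)

theorem Phi_nc {k r : ℕ} (hk : 0 < k) (E : Fin r → Finset (Fin k)) (c : Fin r → ℤ) (a : ℤ) :
    Phi 1 E c ≠ C a := by
  intro h0
  have h2 := Pool.Agent.Q42.CU.Phi_eval (1 : ℤ) E c
    (Fin.addCases (Pi.single ⟨0, hk⟩ 1) fun _ => 0)
  have h3 := Pool.Agent.Q42.CU.Phi_eval (1 : ℤ) E c (Fin.addCases (fun _ => 0) fun _ => 0)
  rw [h0, eval_C] at h2 h3
  simp only [Fin.addCases_left, Fin.addCases_right, zero_mul, Finset.sum_const_zero, add_zero,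
    one_mul, ne_eq, OfNat.ofNat_ne_zero, not_false_eq_true, zero_pow] at h2 h3
  rw [h3, Finset.sum_eq_single ⟨0, hk⟩] at h2
  · rw [Pi.single_eq_same, one_pow] at h2
    exact zero_ne_one h2
  · intro j _ hj
    rw [Pi.single_eq_of_ne hj, zero_pow three_ne_zero]
  · intro h
    exact absurd (Finset.mem_univ _) h

/-- **Denef's question for any set of primes `p ≥ 5` is equivalent to its case of the polynomials of
triple systems with mild singularities; Q1 is equivalent to this case for all `p ≥ 5` and to the case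
of tensors for the primes `2` and `3`.**

`DenefAt p f`: for every pole `T₀` of Igusa's Poincaré series of `f` at `p` (`IsPoleOfOrder`, of order
`r > 0`: the series is the expansion of `A / ((T - T₀) ^ r B)` with polynomials `A`, `B` which do not
vanish at `T₀`) and every `b` with `b(s) f ^ s = P(s) f ^ (s + 1)` (`IsBFunction`), `P(s)` in the Weyl
algebra, polynomial in `s` (for instance `b = b_f`), one has `b(t₀) = 0`, `t₀ = - log |T₀| / log p`.

`Phi 1 E c` is the polynomial `∑ z_i ^ 3 + ∑_j y_j (∑_{i ∈ E j} z_i - c j)`. `IsTriple {1} E c`: every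
`E j` has three elements and `c j = 0`, or one element and `c j ∈ {0, 1}`; and at most one `c j` is `1`.
`StZ f κ F`: `F` has `n + 1 + 2 κ` variables and an isomorphism of polynomial rings over `ℤ[1/24]`
takes `u f + ∑_{m < κ} v_m w_m` to `F`. `MildR N F`: for every prime `p ≥ 5` and every pole `T₀` of the
Poincaré series of `F` at `p`, `t₀ = -1` or `t₀ ≤ -N`. `MinE N F`: there is `c ≠ 0` such that
`(s + 1) c(s)` satisfies a functional equation for `F` (as `b` above), and the roots of `c` have real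
part `< -N`. `tens A = ∑ A i j l * t_i * x̂_j * ŷ_l` with `x̂_none = ŷ_none = 1`; `Sign A`: all entries are
`0`, `1` or `-1`; `MildP N F`: as `MildR N F`, for every prime `p`.

First part: for every `f` which is not constant and all large `κ` there is such a `Φ` with
`StZ f κ Φ`, and for every prime `p ≥ 5` the answer for `Φ` and `p` implies the answer for `f` and `p`;
`MinE N Φ` holds if `f` has a functional equation with `b ≠ 0` (which is Bernstein's theorem). Second
part: the equivalence, for any set `Q` of primes `p ≥ 5`. Third part: the equivalence for Q1. -/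
theorem result (N : ℕ) :
    (∀ (n : ℕ) (f : MvPolynomial (Fin n) ℤ), (∀ a, f ≠ C a) →
      ∃ κ₁ : ℕ, ∀ κ, κ₁ ≤ κ →
        ∃ (k r : ℕ) (E : Fin r → Finset (Fin k)) (c : Fin r → ℤ), 0 < k ∧
          IsTriple {1} E c ∧ StZ f κ (Phi 1 E c) ∧ MildR N (Phi 1 E c) ∧
          ((∃ b : Polynomial ℂ, b ≠ 0 ∧ IsBFunction (map (Int.castRingHom ℂ) f) b) →
            MinE N (Phi 1 E c)) ∧
          ∀ p : ℕ, p.Prime → 5 ≤ p → DenefAt p (Phi 1 E c) → DenefAt p f) ∧
    (∀ Q : Set ℕ, (∀ p ∈ Q, p.Prime ∧ 5 ≤ p) →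
      ((∀ (n : ℕ) (f : MvPolynomial (Fin n) ℤ), (∀ a, f ≠ C a) → ∀ p ∈ Q, DenefAt p f) ↔
        ∀ (k r : ℕ) (E : Fin r → Finset (Fin k)) (c : Fin r → ℤ), 0 < k →
          IsTriple {1} E c → MildR N (Phi 1 E c) → MinE N (Phi 1 E c) →
          ∀ p ∈ Q, DenefAt p (Phi 1 E c))) ∧
    ((∀ (n : ℕ) (f : MvPolynomial (Fin n) ℤ), (∀ a, f ≠ C a) →
        ∀ p : ℕ, p.Prime → DenefAt p f) ↔
      (∀ (k r : ℕ) (E : Fin r → Finset (Fin k)) (c : Fin r → ℤ), 0 < k →
          IsTriple {1} E c → MildR N (Phi 1 E c) → MinE N (Phi 1 E c) →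
          ∀ p : ℕ, p.Prime → 5 ≤ p → DenefAt p (Phi 1 E c)) ∧
        ∀ (k n : ℕ) (A : Fin k → Option (Fin n) → Option (Fin n) → ℤ),
          Sign A → (∀ a, tens A ≠ C a) → MildP N (tens A) →
          DenefAt 2 (tens A) ∧ DenefAt 3 (tens A)) := by
  have key : ∀ (n : ℕ) (f : MvPolynomial (Fin n) ℤ), (∀ a, f ≠ C a) →
      ∃ κ₁ : ℕ, ∀ κ, κ₁ ≤ κ →
        ∃ (k r : ℕ) (E : Fin r → Finset (Fin k)) (c : Fin r → ℤ), 0 < k ∧
          IsTriple {1} E c ∧ StZ f κ (Phi 1 E c) ∧ MildR N (Phi 1 E c) ∧
          ((∃ b : Polynomial ℂ, b ≠ 0 ∧ IsBFunction (map (Int.castRingHom ℂ) f) b) →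
            MinE N (Phi 1 E c)) ∧
          ∀ p : ℕ, p.Prime → 5 ≤ p → DenefAt p (Phi 1 E c) → DenefAt p f := by
    intro n f hf
    have hf0 : f ≠ 0 := fun h => hf 0 (by rw [h, map_zero])
    obtain ⟨κ₁, h⟩ := exists_phiZ N f hf0
    refine ⟨κ₁, fun κ hκ => ?_⟩
    obtain ⟨k, r, E, c, h1, h2, h3, h4, h5, h6⟩ := h κ hκ
    refine ⟨k, r, E, c, h1, h2, h3, mildR_of (Phi_ne h1 E c) h5, h6, fun p hp hp5 h => ?_⟩
    have : Fact p.Prime := ⟨hp⟩
    exact h3.denefAt hf0 h4 p hp5 h
  have step : ∀ (p : ℕ), p.Prime → 5 ≤ p →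
      (∀ (k r : ℕ) (E : Fin r → Finset (Fin k)) (c : Fin r → ℤ), 0 < k →
          IsTriple {1} E c → MildR N (Phi 1 E c) → MinE N (Phi 1 E c) →
          DenefAt p (Phi 1 E c)) →
      ∀ (n : ℕ) (f : MvPolynomial (Fin n) ℤ), (∀ a, f ≠ C a) → DenefAt p f := by
    intro p hp h5 h n f hf
    by_cases hb : ∃ b : Polynomial ℂ, b ≠ 0 ∧ IsBFunction (map (Int.castRingHom ℂ) f) b
    · obtain ⟨κ₁, h0⟩ := key n f hf
      obtain ⟨k, r, E, c, h1, h2, h3, h4, h6, h7⟩ := h0 κ₁ le_rfl
      exact h7 p hp h5 (h k r E c h1 h2 h4 (h6 hb))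
    · intro T₀ r _ _ b hb'
      by_contra hne
      exact hb ⟨b, fun h0 => hne (by rw [h0, Polynomial.eval_zero]), hb'⟩
  refine ⟨key, fun Q hQ => ⟨fun h k r E c hk _ _ _ p hp => h _ _ (Phi_nc hk E c) p hp,
    fun h n f hf p hp => step p (hQ p hp).1 (hQ p hp).2
      (fun k r E c h1 h2 h3 h4 => h k r E c h1 h2 h3 h4 p hp) n f hf⟩,
    fun h => ⟨fun k r E c hk _ _ _ p hp _ => h _ _ (Phi_nc hk E c) p hp,
      fun k n A _ h0 _ => ?_⟩, fun h n f hf p hp => ?_⟩
  · have h1 : ∀ p : ℕ, p.Prime → DenefAt p (tens A) := by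
      intro p hp
      refine denef_rename ((Equiv.sumCongr (Equiv.refl _) finSumFinEquiv).trans finSumFinEquiv) p
        (h _ _ (fun a h1 => h0 a ?_) p hp)
      exact rename_injective _ (Equiv.injective _) (by rw [h1, rename_C])
    exact ⟨h1 2 Nat.prime_two, h1 3 Nat.prime_three⟩
  · by_cases h5 : 5 ≤ p
    · exact step p hp h5 (fun k r E c h1 h2 h3 h4 => h.1 k r E c h1 h2 h3 h4 p hp h5) n f hf
    · have h23 : p = 2 ∨ p = 3 := by
        have h2 := hp.two_le
        have h4 : p ≠ 4 := by
          rintro rfl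
          exact absurd hp (by norm_num)
        omega
      have hf0 : f ≠ 0 := fun h => hf 0 (by rw [h, map_zero])
      obtain ⟨k, n', m, A, hm, hA, hfol⟩ := exists_chain_tens
        (Pool.Agent.W206.CU.follow_chain f) f (Pool.Agent.W206.CU.follow_start f hf0) (max N 1)
      have hA2 := h.2 k n' A hA hfol.2.2 (mildP_of_mild
        (fun h0 => hfol.2.2 0 (by rw [h0, map_zero]))
        (mild_follow hfol ((le_max_left _ _).trans hm)))
      have : Fact p.Prime := ⟨hp⟩
      refine denef_of_follow hf0 ((le_max_right _ _).trans hm) hfol p ?_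
      rcases h23 with rfl | rfl
      · exact hA2.1
      · exact hA2.2

end Pool.Agent.Results.MP_5d9b3c_ag.TripleSystems
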